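import Pool.Agent.Helper63.Sey2.Goals
import Mathlib

/-!
# Project SEY2 (MP_b6b2d3_co), packet FIB: the fibre of erasing a colour
-/

set_option autoImplicit false

namespace Pool.Agent.Helper91.Sey2

open Pool.Agent.Helper63.Sey2

section

variable {V : Type} {q : ℕ} {S : Set V} {c : Fin q} {φ : V → Option (Fin q)}

theorem er_some {u : V} {d : Fin q} (h : er S c φ u = some d) : φ u = some d := by
  unfold er at h
  split_ifs at h with h1
  exact h

theorem er_out {u : V} (hu : u ∉ S) : er S c φ u = φ u := by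
  unfold er
  rw [if_neg fun h => hu h.1]

theorem er_em {u : V} (hu : u ∈ S) : er S c φ u ≠ some c := by
  intro h
  unfold er at h
  split_ifs at h with h1
  exact h1 ⟨hu, h⟩

theorem er_none {u : V} (hu : u ∈ S) : er S c φ u = none ↔ φ u = none ∨ φ u = some c := by
  unfold er
  split_ifs with h1
  · exact ⟨fun _ => Or.inr h1.2, fun _ => rfl⟩
  · exact ⟨Or.inl, fun h => h.resolve_right fun h2 => h1 ⟨hu, h2⟩⟩

theorem er_eq {u : V} (h : ¬ (u ∈ S ∧ φ u = some c)) : er S c φ u = φ u := by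
  unfold er
  rw [if_neg h]

theorem er_pos {u : V} (h : u ∈ S ∧ φ u = some c) : er S c φ u = none := by
  unfold er
  rw [if_pos h]

theorem ok_er {H : SimpleGraph V} (hφ : Ok H φ) : Ok H (er S c φ) :=
  fun u v d huv hu hv => hφ u v d huv (er_some hu) (er_some hv)

variable [Fintype V]

theorem mem_Fr {H : SimpleGraph V} {u : V} : u ∈ Fr H S c φ ↔
    u ∈ S ∧ (φ u = none ∨ φ u = some c) ∧ ∀ w, w ∉ S → H.Adj u w → φ w ≠ some c := by
  classical
  unfold Fr
  refine Finset.mem_filter.trans ?_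
  exact ⟨fun h => h.2, fun h => ⟨Finset.mem_univ _, h⟩⟩

theorem mem_Fr' {H : SimpleGraph V} {u : V} : u ∈ Fr H S c φ ↔
    u ∈ S ∧ er S c φ u = none ∧ ∀ w, w ∉ S → H.Adj u w → er S c φ w ≠ some c := by
  rw [mem_Fr]
  constructor
  · rintro ⟨h1, h2, h3⟩
    exact ⟨h1, (er_none h1).2 h2, fun w hw hu => by rw [er_out hw]; exact h3 w hw hu⟩
  · rintro ⟨h1, h2, h3⟩
    exact ⟨h1, (er_none h1).1 h2, fun w hw hu => by
      rw [← er_out (S := S) (c := c) (φ := φ) hw]; exact h3 w hw hu⟩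

open Classical in
/-- the colouring belonging to the set `I` -/
noncomputable def pI (S : Set V) (c : Fin q) (φ : V → Option (Fin q)) (I : Finset V) :
    V → Option (Fin q) := fun u => if u ∈ I then some c else er S c φ u

theorem pI_pos {I : Finset V} {u : V} (h : u ∈ I) : pI S c φ I u = some c := by
  unfold pI
  rw [if_pos h]

theorem pI_neg {I : Finset V} {u : V} (h : u ∉ I) : pI S c φ I u = er S c φ u := by
  unfold pI
  rw [if_neg h]

theorem pI_iff {H : SimpleGraph V} {I : Finset V} (hI : I ⊆ Fr H S c φ) (u : V) :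
    u ∈ I ↔ u ∈ S ∧ pI S c φ I u = some c := by
  constructor
  · intro h
    exact ⟨(mem_Fr.1 (hI h)).1, pI_pos h⟩
  · rintro ⟨h1, h2⟩
    by_contra h
    rw [pI_neg h] at h2
    exact er_em h1 h2

theorem pI_ok {H : SimpleGraph V} {I : Finset V} (hφ : Ok H φ) (hI : I ⊆ Fr H S c φ)
    (hind : ∀ u ∈ I, ∀ v ∈ I, ¬ H.Adj u v) : Ok H (pI S c φ I) := by
  have key : ∀ u v, u ∈ I → H.Adj u v → pI S c φ I v ≠ some c := by
    intro u v hu huv
    by_cases hv : v ∈ I
    · exact absurd huv (hind u hu v hv)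
    · rw [pI_neg hv]
      by_cases hvS : v ∈ S
      · exact er_em hvS
      · exact (mem_Fr'.1 (hI hu)).2.2 v hvS huv
  intro u v d huv hu hv
  by_cases hu' : u ∈ I
  · rw [pI_pos hu'] at hu
    exact key u v hu' huv (by rw [hv, hu])
  · by_cases hv' : v ∈ I
    · rw [pI_pos hv'] at hv
      exact key v u hv' huv.symm (by rw [hu, hv])
    · rw [pI_neg hu'] at hu
      rw [pI_neg hv'] at hv
      exact ok_er hφ u v d huv hu hv

theorem pI_er {H : SimpleGraph V} {I : Finset V} (hI : I ⊆ Fr H S c φ) :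
    er S c (pI S c φ I) = er S c φ := by
  funext u
  by_cases hu : u ∈ I
  · rw [er_pos ((pI_iff hI u).1 hu), (mem_Fr'.1 (hI hu)).2.1]
  · rw [er_eq fun h => hu ((pI_iff hI u).2 h), pI_neg hu]

open Classical in
/-- the class of `c` in `S` -/
noncomputable def cl (S : Set V) (c : Fin q) (φ : V → Option (Fin q)) : Finset V :=
  Finset.univ.filter fun u => u ∈ S ∧ φ u = some c

theorem mem_cl {u : V} : u ∈ cl S c φ ↔ u ∈ S ∧ φ u = some c := by
  classical
  unfold cl
  refine Finset.mem_filter.trans ?_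
  exact ⟨fun h => h.2, fun h => ⟨Finset.mem_univ _, h⟩⟩

theorem cl_card : (cl S c φ).card = Nat.card {u // u ∈ S ∧ φ u = some c} := by
  classical
  rw [Nat.card_eq_fintype_card, Fintype.card_subtype]
  exact congrArg Finset.card (Finset.ext fun u => by
    rw [mem_cl, Finset.mem_filter]
    exact ⟨fun h => ⟨Finset.mem_univ _, h⟩, fun h => h.2⟩)

theorem cl_pI {φ' : V → Option (Fin q)} (h : er S c φ' = er S c φ) :
    pI S c φ (cl S c φ') = φ' := by
  funext u
  by_cases hu : u ∈ cl S c φ'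
  · rw [pI_pos hu, (mem_cl.1 hu).2]
  · rw [pI_neg hu, ← h, er_eq fun h => hu (mem_cl.2 h)]

theorem cl_Fr {H : SimpleGraph V} {φ' : V → Option (Fin q)} (hok : Ok H φ')
    (h : er S c φ' = er S c φ) : cl S c φ' ⊆ Fr H S c φ := by
  intro u hu
  have hu' := mem_cl.1 hu
  rw [mem_Fr', ← h]
  refine ⟨hu'.1, er_pos hu', fun w hw huw => ?_⟩
  rw [er_out hw]
  exact hok u w c huw hu'.2

end

/-- the number of small subsets -/
theorem small {V : Type} [Fintype V] (F : Finset V) (m : ℕ) :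
    Nat.card {I : Finset V // I ⊆ F ∧ I.card < m} ≤ (F.card + 1) ^ m := by
  classical
  have h0 : Nat.card (Fin m → Option F) = (F.card + 1) ^ m := by
    rw [Nat.card_eq_fintype_card, Fintype.card_fun, Fintype.card_option, Fintype.card_coe,
      Fintype.card_fin]
  rw [← h0]
  have hex : ∀ I : {I : Finset V // I ⊆ F ∧ I.card < m}, ∃ g : Fin m → Option F,
      ∀ x : V, x ∈ I.1 ↔ ∃ i, ∃ y, g i = some y ∧ y.1 = x := by
    intro I
    refine ⟨fun i => if h : i.1 < I.1.card then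
      some ⟨(I.1.equivFin.symm ⟨i.1, h⟩).1, I.2.1 (I.1.equivFin.symm ⟨i.1, h⟩).2⟩ else none,
      fun x => ?_⟩
    constructor
    · intro hx
      have h1 : (I.1.equivFin ⟨x, hx⟩).1 < I.1.card := (I.1.equivFin ⟨x, hx⟩).2
      refine ⟨⟨(I.1.equivFin ⟨x, hx⟩).1, h1.trans I.2.2⟩, ⟨x, I.2.1 hx⟩, ?_, rfl⟩
      refine (dif_pos h1).trans (congrArg some (Subtype.ext ?_))
      have h2 : (⟨(I.1.equivFin ⟨x, hx⟩).1, h1⟩ : Fin I.1.card) = I.1.equivFin ⟨x, hx⟩ := rfl
      show ((I.1.equivFin.symm ⟨(I.1.equivFin ⟨x, hx⟩).1, h1⟩ : I.1) : V) = x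
      rw [h2, Equiv.symm_apply_apply]
    · rintro ⟨i, y, hi, rfl⟩
      dsimp only at hi
      split_ifs at hi with h
      have h3 := Option.some.inj hi
      rw [← h3]
      exact (I.1.equivFin.symm ⟨i.1, h⟩).2
  choose g hg using hex
  refine Nat.card_le_card_of_injective g fun I J hIJ => ?_
  refine Subtype.ext (Finset.ext fun x => ?_)
  rw [hg I x, hg J x, hIJ]

theorem goalFIB : GoalFIB := by
  intro V _ H q S c φ hφ
  classical
  refine ⟨?_, ?_, ?_, ?_⟩
  · refine Nat.card_le_card_of_injective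
      (fun I : {I : Finset V // I ⊆ Fr H S c φ ∧ ∀ u ∈ I, ∀ v ∈ I, ¬ H.Adj u v} =>
        (⟨pI S c φ I.1, pI_ok hφ I.2.1 I.2.2, pI_er I.2.1⟩ :
          {φ' // Ok H φ' ∧ er S c φ' = er S c φ})) ?_
    intro I J hIJ
    have h : pI S c φ I.1 = pI S c φ J.1 := congrArg Subtype.val hIJ
    refine Subtype.ext (Finset.ext fun u => ?_)
    rw [pI_iff I.2.1 u, pI_iff J.2.1 u, h]
  · intro m
    refine le_trans (Nat.card_le_card_of_injective
      (fun f : {φ' // (Ok H φ' ∧ er S c φ' = er S c φ) ∧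
          Nat.card {u // u ∈ S ∧ φ' u = some c} < m} =>
        (⟨cl S c f.1, cl_Fr f.2.1.1 f.2.1.2, by rw [cl_card]; exact f.2.2⟩ :
          {I : Finset V // I ⊆ Fr H S c φ ∧ I.card < m})) ?_) (small _ m)
    intro f g hfg
    have h : cl S c f.1 = cl S c g.1 := congrArg Subtype.val hfg
    refine Subtype.ext ?_
    rw [← cl_pI f.2.1.2, ← cl_pI g.2.1.2, h]
  · rw [Nat.card_eq_one_iff_unique]
    constructor
    · constructor
      rintro ⟨f, ⟨hf1, hf2⟩, hf3⟩ ⟨g, ⟨hg1, hg2⟩, hg3⟩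
      refine Subtype.ext ?_
      have h1 : er S c f = f := funext fun u => er_eq fun h => hf3 u h.1 h.2
      have h2 : er S c g = g := funext fun u => er_eq fun h => hg3 u h.1 h.2
      show f = g
      rw [← h1, ← h2, hf2, hg2]
    · exact ⟨⟨er S c φ, ⟨ok_er hφ, funext fun u => er_eq fun h => er_em h.1 h.2⟩,
        fun u hu => er_em hu⟩⟩
  · intro φ' _ h
    ext u
    rw [mem_Fr', mem_Fr', h]

end Pool.Agent.Helper91.Sey2
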